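import Mathlib

namespace Pool.Agent.Results.MP_a85856_gt.Radius

open Set Pointwise

/-- circumradius with respect to the unit ball of the norm -/
noncomputable def R {E : Type} [NormedAddCommGroup E] [NormedSpace ℝ E] (K : Set E) : ℝ :=
  sInf {l : ℝ | 0 ≤ l ∧ ∃ t : E, K ⊆ {t} + l • Metric.closedBall (0 : E) 1}

theorem mem_iff {E : Type} [NormedAddCommGroup E] [NormedSpace ℝ E] (t : E) (l : ℝ) (hl : 0 ≤ l) :
    {t} + l • Metric.closedBall (0 : E) 1 = Metric.closedBall t l := by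
  rw [smul_unitClosedBall_of_nonneg hl, singleton_add_closedBall_zero]

instance : Fact ((1 : ENNReal) ≤ 3) := ⟨by norm_num⟩

abbrev E := PiLp 3 fun _ : Fin (26 * 26) => ℝ

theorem nrm (x : E) : ‖x‖ ^ 3 = ∑ a, ∑ b, |x (finProdFinEquiv (a, b))| ^ 3 := by
  rw [PiLp.norm_eq_sum (by norm_num), ← Fintype.sum_prod_type', ← Real.rpow_natCast,
    ← Real.rpow_mul (by positivity), ← finProdFinEquiv.sum_comp]
  norm_num

theorem sum_if (i : Fin 26) (g : ℝ → ℝ) :
    ∑ a : Fin 26, g (if a = i then 1 else 0) = g 1 + 25 * g 0 := by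
  rw [← Finset.add_sum_erase _ _ (Finset.mem_univ i), if_pos rfl,
    Finset.sum_congr rfl fun a ha => by rw [if_neg (Finset.ne_of_mem_erase ha)]]
  simp

def v (c : Fin 26 × Fin 26 → Fin 26) (i : Fin 26) : E :=
  WithLp.toLp 3 fun k => if c (finProdFinEquiv.symm k) = i then 1 else 0

theorem low (c : Fin 26 × Fin 26 → Fin 26) : 650 / 36 ≤ R (convexHull ℝ (range (v c))) ^ 3 := by
  have key : ∀ s : ℝ, 25 / 36 ≤ |1 - s| ^ 3 + 25 * |0 - s| ^ 3 := fun s => by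
    have a : ∀ x y : ℝ, 0 ≤ y → 3 * y ^ 2 * x - 2 * y ^ 3 ≤ |x| ^ 3 := fun x y hy => by
      nlinarith [mul_nonneg (sq_nonneg y) (sub_nonneg.2 (le_abs_self x)),
        mul_nonneg (sq_nonneg (|x| - y)) (show 0 ≤ |x| + 2 * y by positivity)]
    rw [zero_sub, abs_neg]
    linarith [a (1 - s) (5 / 6) (by norm_num), a s (1 / 6) (by norm_num)]
  obtain ⟨r, r0, hr⟩ : ∃ r : ℝ, 0 ≤ r ∧ r ^ 3 = 650 / 36 :=
    ⟨(650 / 36) ^ ((3 : ℕ) : ℝ)⁻¹, by positivity, Real.rpow_inv_natCast_pow (by norm_num) (by norm_num)⟩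
  rw [← hr]
  refine pow_le_pow_left₀ r0 (le_csInf ?_ ?_) 3
  · obtain ⟨l, l0, hl⟩ :=
      ((finite_range (v c)).isCompact_convexHull (𝕜 := ℝ)).isBounded.subset_closedBall_lt 0 0
    exact ⟨l, l0.le, 0, by rwa [mem_iff _ _ l0.le]⟩
  rintro l ⟨l0, t, ht⟩
  rw [mem_iff _ _ l0] at ht
  refine le_of_pow_le_pow_left₀ three_ne_zero l0 ?_
  have h1 : ∑ i, ‖v c i - t‖ ^ 3 ≤ ∑ _ : Fin 26, l ^ 3 := Finset.sum_le_sum fun i _ =>
    pow_le_pow_left₀ (norm_nonneg _) (mem_closedBall_iff_norm.1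
      (ht (subset_convexHull ℝ _ ⟨i, rfl⟩))) 3
  have h2 : ∑ _ : Fin 26, ∑ _ : Fin 26, (25 / 36 : ℝ) ≤ ∑ i, ‖v c i - t‖ ^ 3 := by
    simp only [nrm]
    refine le_of_le_of_eq (Finset.sum_le_sum fun a _ => ?_) Finset.sum_comm
    refine le_of_le_of_eq (Finset.sum_le_sum fun b _ => ?_) Finset.sum_comm
    refine (key (t (finProdFinEquiv (a, b)))).trans_eq ?_
    rw [← sum_if (c (a, b)) fun y => |y - t (finProdFinEquiv (a, b))| ^ 3]
    simp [v, eq_comm]
  simp only [Finset.sum_const, Finset.card_univ, Fintype.card_fin, nsmul_eq_mul] at h1 h2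
  push_cast at h1 h2
  linarith

theorem result : ∃ (n : ℕ) (K L : Set (PiLp 3 fun _ : Fin n => ℝ)), 1 ≤ n ∧
    K.Nonempty ∧ IsCompact K ∧ Convex ℝ K ∧ L.Nonempty ∧ IsCompact L ∧ Convex ℝ L ∧
    R (K + L) < (R K ^ 3 + R L ^ 3) ^ (1 / 3 : ℝ) := by
  refine ⟨26 * 26, convexHull ℝ (range (v Prod.fst)), convexHull ℝ (range (v Prod.snd)), by norm_num,
    (range_nonempty _).convexHull, (finite_range _).isCompact_convexHull ℝ, convex_convexHull _ _,
    (range_nonempty _).convexHull, (finite_range _).isCompact_convexHull ℝ, convex_convexHull _ _, ?_⟩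
  have up : R (convexHull ℝ (range (v Prod.fst)) + convexHull ℝ (range (v Prod.snd))) ≤ 3.302 := by
    refine csInf_le ⟨0, fun _ h => h.1⟩ ⟨by norm_num, WithLp.toLp 3 fun _ => 3 / 13, ?_⟩
    rw [mem_iff _ _ (by norm_num), ← convexHull_add]
    refine convexHull_min ?_ (convex_closedBall _ _)
    rintro _ ⟨_, ⟨i, rfl⟩, _, ⟨j, rfl⟩, rfl⟩
    refine mem_closedBall_iff_norm.2 (le_of_pow_le_pow_left₀ three_ne_zero (by norm_num) ?_)
    have : ∀ a b, (v Prod.fst i + v Prod.snd j - WithLp.toLp 3 fun _ => 3 / 13 : E)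
        (finProdFinEquiv (a, b)) = (if a = i then 1 else 0) + (if b = j then 1 else 0) - 3 / 13 := by
      simp [v]
    simp only [nrm, this]
    rw [Finset.sum_congr rfl fun a _ => sum_if j fun y => |(if a = i then 1 else 0) + y - 3 / 13| ^ 3,
      sum_if i fun y => |y + 1 - 3 / 13| ^ 3 + 25 * |y + 0 - 3 / 13| ^ 3]
    norm_num [abs_of_pos]
  refine up.trans_lt ?_
  have := add_le_add (low Prod.fst) (low Prod.snd)
  rw [one_div, Real.lt_rpow_inv_iff_of_pos (by norm_num) (by linarith) (by norm_num)]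
  refine lt_of_lt_of_le ?_ this
  norm_num

end Pool.Agent.Results.MP_a85856_gt.Radius
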